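import Pool.Agent.Helper32.OIP.Goals

/-!
# Packet OIP P2: optimisation
-/

set_option autoImplicit false

namespace Pool.Agent.Helper87.OIP

open MeasureTheory Pool.Agent.Helper32.OIP Pool.Agent.Helper58.Orb Filter Topology

/-- Choice of the constant. -/
theorem exists_c (C N m : ℝ) (_hC : 1 ≤ C) (hN : 1 ≤ N) (hm : 0 < m) :
    ∃ c : ℝ, 0 < c ∧ c ≤ m ∧ c ≤ 1 / 16 ∧ C * Real.sqrt c ≤ 1 / 2 ∧
      3 * N * C * (10 + 4 * Real.log (32 * N / c)) * Real.sqrt c ≤ 1 := by
  have h1 : Tendsto (fun x : ℝ => Real.sqrt x) (𝓝[>] 0) (𝓝 0) := by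
    have : Tendsto (fun x : ℝ => Real.sqrt x) (𝓝 0) (𝓝 (Real.sqrt 0)) :=
      Real.continuous_sqrt.tendsto 0
    rw [Real.sqrt_zero] at this
    exact this.mono_left nhdsWithin_le_nhds
  have h2 : Tendsto (fun x : ℝ => Real.log x * Real.sqrt x) (𝓝[>] 0) (𝓝 0) := by
    have := tendsto_log_mul_rpow_nhdsGT_zero (r := (1 / 2 : ℝ)) (by norm_num)
    refine this.congr fun x => ?_
    rw [Real.sqrt_eq_rpow]
  have h3 : Tendsto (fun x : ℝ => 3 * N * C * (10 + 4 * Real.log (32 * N)) * Real.sqrt x -
      12 * N * C * (Real.log x * Real.sqrt x)) (𝓝[>] 0) (𝓝 0) := by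
    have := (h1.const_mul (3 * N * C * (10 + 4 * Real.log (32 * N)))).sub
      (h2.const_mul (12 * N * C))
    simpa using this
  have h4 : Tendsto (fun x : ℝ => C * Real.sqrt x) (𝓝[>] 0) (𝓝 0) := by
    have := h1.const_mul C
    simpa using this
  have e0 : ∀ᶠ x : ℝ in 𝓝[>] 0, 0 < x := self_mem_nhdsWithin
  have e1 : ∀ᶠ x : ℝ in 𝓝[>] 0, x < m := by
    have : ∀ᶠ x : ℝ in 𝓝 (0 : ℝ), x < m := gt_mem_nhds hm
    exact this.filter_mono nhdsWithin_le_nhds
  have e2 : ∀ᶠ x : ℝ in 𝓝[>] 0, x < 1 / 16 := by
    have : ∀ᶠ x : ℝ in 𝓝 (0 : ℝ), x < 1 / 16 := gt_mem_nhds (by norm_num)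
    exact this.filter_mono nhdsWithin_le_nhds
  have e3 := h4.eventually (gt_mem_nhds (show (0 : ℝ) < 1 / 2 by norm_num))
  have e4 := h3.eventually (gt_mem_nhds (show (0 : ℝ) < 1 by norm_num))
  obtain ⟨c, hc0, hc1, hc2, hc3, hc4⟩ := (e0.and (e1.and (e2.and (e3.and e4)))).exists
  refine ⟨c, hc0, hc1.le, hc2.le, hc3.le, ?_⟩
  have hlog : Real.log (32 * N / c) = Real.log (32 * N) - Real.log c :=
    Real.log_div (by positivity) hc0.ne'
  rw [hlog]
  calc 3 * N * C * (10 + 4 * (Real.log (32 * N) - Real.log c)) * Real.sqrt c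
      = 3 * N * C * (10 + 4 * Real.log (32 * N)) * Real.sqrt c -
        12 * N * C * (Real.log c * Real.sqrt c) := by ring
    _ ≤ 1 := hc4.le

theorem p2 : GoalP2 := by
  intro C N δ j0 Adm hC hN hδ hlim hdoub hmain
  obtain ⟨m, hm0, hm⟩ : ∃ m : ℝ, 0 < m ∧ ∀ i ≤ j0, m ≤ δ i := by
    obtain ⟨i0, _, hi0⟩ := Finset.exists_min_image (Finset.range (j0 + 1)) δ ⟨0, by simp⟩
    exact ⟨δ i0, hδ i0, fun i hi => hi0 i (Finset.mem_range.2 (by omega))⟩
  obtain ⟨c, hc0, hcm, hc16, hcC, hcg⟩ := exists_c C N m hC hN hm0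
  refine ⟨c / (32 * N), by positivity, ?_⟩
  intro r hr η hη
  have hr2 : (2 : ℝ) ≤ r := by exact_mod_cast hr
  have hlog2 : (1 : ℝ) / 2 < Real.log 2 := by
    have := Real.log_two_gt_d9
    linarith
  have hlogr : Real.log 2 ≤ Real.log r := Real.log_le_log (by norm_num) hr2
  have hlogr0 : 0 < Real.log r := by linarith
  have hlogr1 : Real.log r ≤ r := (Real.log_le_sub_one_of_pos (by linarith)).trans (by linarith)
  have hrl : 1 < (r : ℝ) * Real.log r := by
    have := Real.log_two_gt_d9
    nlinarith
  set P : ℝ := ((r : ℝ) * Real.log r) ^ 2 with hP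
  have hP1 : 1 < P := by
    rw [hP]
    nlinarith
  have hP0 : 0 < P := by linarith
  have hstar0 : 0 < c / P := by positivity
  have hstar_c : c / P < c := (div_lt_iff₀ hP0).2 (by nlinarith)
  by_cases hη512 : η ≤ 1 / 512
  swap
  · push Not at hη512
    have h1 : c / (32 * N) / P ≤ c / (32 * N) := by
      apply div_le_self (by positivity) hP1.le
    have h2 : c / (32 * N) ≤ 1 / 512 := by
      rw [div_le_div_iff₀ (by positivity) (by norm_num)]
      nlinarith
    linarith
  · -- the index
    have hex : ∃ j, δ j ≤ c / P := by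
      have := (hlim.eventually (gt_mem_nhds hstar0)).exists
      obtain ⟨j, hj⟩ := this
      exact ⟨j, hj.le⟩
    classical
    obtain ⟨j, hj, hjmin⟩ : ∃ j, δ j ≤ c / P ∧ ∀ i < j, c / P < δ i :=
      ⟨Nat.find hex, Nat.find_spec hex, fun i hi => not_le.1 (Nat.find_min hex hi)⟩
    have hj0 : j0 < j := by
      by_contra hcon
      push Not at hcon
      have := hm j hcon
      linarith
    have hlow : c / P / 2 ≤ δ j := by
      have h1 := hjmin (j - 1) (by omega)
      have h2 := hdoub (j - 1)
      rw [show j - 1 + 1 = j by omega] at h2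
      linarith
    -- the number `K`
    have hδj := hδ j
    have harg : (1 : ℝ) < 16 * N / δ j := by
      rw [lt_div_iff₀ hδj]
      linarith
    have hlarg : 0 < Real.log (16 * N / δ j) := Real.log_pos harg
    set K : ℕ := ⌈Real.log (16 * N / δ j) / Real.log 2⌉₊ with hK
    have hlog20 : 0 < Real.log 2 := by linarith
    have hK1 : 1 ≤ K := by
      rw [hK, Nat.one_le_ceil_iff]
      positivity
    have hKlow : Real.log (16 * N / δ j) / Real.log 2 ≤ K := Nat.le_ceil _
    have hKup : (K : ℝ) < Real.log (16 * N / δ j) / Real.log 2 + 1 :=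
      Nat.ceil_lt_add_one (by positivity)
    have hpow : 2 * (1 / 2 : ℝ) ^ K ≤ δ j / (8 * N) := by
      have h1 : Real.log (16 * N / δ j) ≤ K * Real.log 2 := by
        rwa [div_le_iff₀ hlog20] at hKlow
      have h2 : 16 * N / δ j ≤ 2 ^ K := by
        rw [← Real.log_pow] at h1
        exact (Real.log_le_log_iff (by positivity) (by positivity)).1 h1
      have h3 : (1 / 2 : ℝ) ^ K = 1 / 2 ^ K := by
        rw [div_pow, one_pow]
      rw [h3]
      rw [div_le_iff₀ hδj] at h2
      rw [mul_one_div, div_le_div_iff₀ (by positivity) (by positivity)]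
      linarith
    -- the bound for `K`
    have hKle : (K : ℝ) ≤ Real.log r * (10 + 4 * Real.log (32 * N / c)) := by
      have h1 : 16 * N / δ j ≤ 32 * N / c * P := by
        rw [div_le_iff₀ hδj]
        have h2 : c / P / 2 * (32 * N / c * P) ≤ δ j * (32 * N / c * P) :=
          mul_le_mul_of_nonneg_right hlow (by positivity)
        have h3 : c / P / 2 * (32 * N / c * P) = 16 * N := by
          field_simp
          ring
        rw [h3] at h2
        linarith
      have h4 : Real.log (16 * N / δ j) ≤ Real.log (32 * N / c) + 4 * Real.log r := by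
        refine (Real.log_le_log (by positivity) h1).trans ?_
        rw [Real.log_mul (by positivity) hP0.ne']
        have h5 : Real.log P ≤ 4 * Real.log r := by
          have h6 : P ≤ (r : ℝ) ^ 4 := by
            rw [hP]
            have h7 : (r : ℝ) * Real.log r ≤ (r : ℝ) ^ 2 := by nlinarith
            calc ((r : ℝ) * Real.log r) ^ 2 ≤ ((r : ℝ) ^ 2) ^ 2 :=
                  pow_le_pow_left₀ (by positivity) h7 2
              _ = (r : ℝ) ^ 4 := by ring
          have h8 := Real.log_le_log hP0 h6
          have h9 : Real.log ((r : ℝ) ^ 4) = 4 * Real.log r := by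
            rw [Real.log_pow]
            norm_num
          rw [h9] at h8
          exact h8
        linarith
      have hL0 : 0 ≤ Real.log (32 * N / c) := by
        apply Real.log_nonneg
        rw [le_div_iff₀ hc0]
        linarith
      have h9 : Real.log (16 * N / δ j) / Real.log 2 ≤
          2 * (Real.log (32 * N / c) + 4 * Real.log r) := by
        rw [div_le_iff₀ hlog20]
        nlinarith
      have h10 : (K : ℝ) ≤ 2 * (Real.log (32 * N / c) + 4 * Real.log r) + 1 := by linarith
      have h11 : 1 ≤ 2 * Real.log r := by linarith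
      nlinarith
    -- the conditions
    have hsq : Real.sqrt (δ j) ≤ Real.sqrt c / (r * Real.log r) := by
      have h1 : Real.sqrt (δ j) ≤ Real.sqrt (c / P) := Real.sqrt_le_sqrt hj
      rw [hP, Real.sqrt_div hc0.le, Real.sqrt_sq (by positivity)] at h1
      exact h1
    have hsq0 : Real.sqrt (δ j) ≤ Real.sqrt c := Real.sqrt_le_sqrt (by linarith)
    have c1 : C * Real.sqrt (δ j) ≤ 1 / 2 :=
      (mul_le_mul_of_nonneg_left hsq0 (by linarith)).trans hcC
    have c2 : (K * (2 * r + 1) : ℝ) * C * Real.sqrt (δ j) ≤ 1 / N := by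
      have hL : 0 ≤ 10 + 4 * Real.log (32 * N / c) := by
        have : 0 ≤ Real.log (32 * N / c) := by
          apply Real.log_nonneg
          rw [le_div_iff₀ hc0]
          linarith
        linarith
      have s0 : 0 ≤ Real.sqrt c := Real.sqrt_nonneg _
      calc (K * (2 * r + 1) : ℝ) * C * Real.sqrt (δ j)
          ≤ (Real.log r * (10 + 4 * Real.log (32 * N / c)) * (3 * r)) * C *
            (Real.sqrt c / (r * Real.log r)) := by
            apply mul_le_mul _ hsq (Real.sqrt_nonneg _) (by positivity)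
            apply mul_le_mul_of_nonneg_right _ (by linarith)
            apply mul_le_mul hKle (by linarith) (by positivity) (by positivity)
        _ = 3 * C * (10 + 4 * Real.log (32 * N / c)) * Real.sqrt c := by
            field_simp
        _ ≤ 1 / N := by
            rw [le_div_iff₀ (by linarith)]
            calc 3 * C * (10 + 4 * Real.log (32 * N / c)) * Real.sqrt c * N
                = 3 * N * C * (10 + 4 * Real.log (32 * N / c)) * Real.sqrt c := by ring
              _ ≤ 1 := hcg
    have hfin := hmain j hj0.le r hr K hK1 η hη hη512 c1 c2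
    have e1 : δ j / (8 * N) = δ j / N / 8 := by
      rw [mul_comm, div_mul_eq_div_div]
    rw [e1] at hpow
    have hx : 0 < δ j / N := by positivity
    have h12 : δ j / N / 16 ≤ η := by linarith
    have h13 : c / (32 * N) / P ≤ δ j / N / 16 := by
      have h14 : c / P / 2 / N / 16 ≤ δ j / N / 16 := by
        apply div_le_div_of_nonneg_right _ (by norm_num)
        exact div_le_div_of_nonneg_right hlow (by linarith)
      have h15 : c / (32 * N) / P = c / P / 2 / N / 16 := by
        field_simp
        ring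
      rw [h15]
      exact h14
    linarith

end Pool.Agent.Helper87.OIP
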